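import Mathlib

set_option autoImplicit false

namespace Pool.Agent.Results.MP_f639ae_co.Exponential

open Finset

/-- a finite poset, given on `Fin n` -/
structure FP where
  n : ℕ
  po : PartialOrder (Fin n)

def FP.T (P : FP) : Type := Fin P.n

instance (P : FP) : PartialOrder P.T := P.po

/-- the `k`-dimension -/
noncomputable def dim (k : ℕ) (α : Type) [PartialOrder α] : ℕ :=
  sInf {t | Nonempty (α ↪o (Fin t → Fin k))}

def Irr (k : ℕ) (α : Type) [PartialOrder α] : Prop := ∀ x : α, dim k {y // y ≠ x} < dim k α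

def iso : Setoid FP :=
  ⟨fun P Q => Nonempty (P.T ≃o Q.T), fun _ => ⟨.refl _⟩, fun ⟨e⟩ => ⟨e.symm⟩,
    fun ⟨e⟩ ⟨f⟩ => ⟨e.trans f⟩⟩

/-- the number of isomorphism classes of `k`-irreducible posets of `k`-dimension `t` -/
noncomputable def N (k t : ℕ) : ℕ∞ :=
  (Quotient.mk iso '' {P | Irr k P.T ∧ dim k P.T = t}).encard

def cnt (T m i : ℕ) : ℕ := ((range m).filter fun j => j % T = i).card

lemma cnt_mono (T i : ℕ) {m m' : ℕ} (h : m ≤ m') : cnt T m i ≤ cnt T m' i :=
  card_le_card (filter_subset_filter _ (range_subset_range.2 h))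

lemma cnt_succ (T m i : ℕ) : cnt T (m + 1) i = cnt T m i + if m % T = i then 1 else 0 := by
  unfold cnt
  rw [range_add_one, filter_insert]
  split_ifs
  · rw [card_insert_of_notMem (by simp)]
  · rfl

lemma cnt_le (T K i : ℕ) : cnt T (T * K) i ≤ K := by
  refine (card_le_card_of_injOn (t := range K) (fun j => j / T) (fun j hj => ?_)
    fun j hj j' hj' e => ?_).trans (by simp)
  · simp only [coe_filter, mem_range, Set.mem_ofPred_eq, coe_range, Set.mem_Iio] at hj ⊢
    exact Nat.div_lt_of_lt_mul hj.1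
  · simp only [coe_filter, mem_range, Set.mem_ofPred_eq] at hj hj' e
    rw [← Nat.div_add_mod j T, ← Nat.div_add_mod j' T, e, hj.2, hj'.2]

lemma embed {α : Type} [PartialOrder α] (T K : ℕ) (hT : 3 ≤ T) (φ σ : α → ℕ)
    (h0 : ∀ a, φ a < T * K) (h1 : ∀ a, σ a ≤ φ a ∧ φ a < σ a + 3)
    (h2 : ∀ a b, a ≤ b ↔ a = b ∨ φ a < σ b)
    (h3 : ∀ a b, a = b ∨ φ a < σ b ∨ φ b < σ a ∨ (σ a = σ b ∧ φ a ≠ φ b)) :
    Nonempty (α ↪o (Fin T → Fin (K + 1))) := by
  have hb : ∀ a i m, φ a < m → cnt T (σ a) i + (if φ a % T = i then 1 else 0) ≤ cnt T m i := by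
    intro a i m hm
    have := cnt_mono T i (h1 a).1
    have := cnt_mono T i (show φ a + 1 ≤ m from hm)
    have := cnt_succ T (φ a) i
    omega
  refine ⟨OrderEmbedding.ofMapLEIff (fun a i => ⟨cnt T (σ a) i + if φ a % T = i then 1 else 0,
    Nat.lt_succ_of_le ((hb a i _ (h0 a)).trans (cnt_le T K i))⟩) fun a b => ?_⟩
  rw [h2]
  constructor
  · intro h
    have := h ⟨φ a % T, Nat.mod_lt _ (by omega)⟩
    simp only [Fin.mk_le_mk, if_true] at this
    rcases h3 a b with e | e | e | ⟨e, e'⟩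
    · exact Or.inl e
    · exact Or.inr e
    · have := hb b (φ a % T) _ e
      omega
    · rw [e, if_neg] at this
      · omega
      · intro e2
        have h4 := h1 a
        have h5 := h1 b
        rcases lt_or_gt_of_ne e' with l | l
        · have := Nat.le_of_dvd (by omega) ((Nat.modEq_iff_dvd' l.le).1 e2.symm)
          omega
        · have := Nat.le_of_dvd (by omega) ((Nat.modEq_iff_dvd' l.le).1 e2)
          omega
  · rintro (rfl | h)
    · exact le_rfl
    · exact fun i => (hb a i _ h).trans (Nat.le_add_right _ _)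

/-- block structure: `s j` is the first element of the block of `j`; blocks have size 2 or 3 -/
structure Bl (c : ℕ) (s : ℕ → ℕ) : Prop where
  h1 : ∀ j < c, s j ≤ j ∧ j < s j + 3 ∧ s j + 1 < c ∧ s (s j + 1) = s j
  h2 : ∀ i j, i < c → j < c → i < s j ∨ j < s i ∨ s i = s j

def P {c : ℕ} {s : ℕ → ℕ} (h : Bl c s) : FP where
  n := c
  po :=
    { le := fun a b => a = b ∨ a.1 < s b
      lt := fun a b => (a = b ∨ a.1 < s b) ∧ ¬ (b = a ∨ b.1 < s a)
      lt_iff_le_not_ge := fun _ _ => Iff.rfl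
      le_refl := fun _ => Or.inl rfl
      le_trans := by
        rintro a b d (rfl | h1) (rfl | h2)
        · exact Or.inl rfl
        · exact Or.inr h2
        · exact Or.inr h1
        · have := h.h1 b b.2
          exact Or.inr (by omega)
      le_antisymm := by
        rintro a b (h1 | h1) (h2 | h2)
        · exact h1
        · exact h1
        · exact h2.symm
        · have := h.h1 a a.2
          have := h.h1 b b.2
          omega }

variable {c : ℕ} {s : ℕ → ℕ} (h : Bl c s)

lemma le_iff (a b : (P h).T) : a ≤ b ↔ a = b ∨ Fin.val a < s (Fin.val b) := Iff.rfl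

def rk {t k : ℕ} (u : Fin t → Fin k) : ℕ := ∑ i, (u i).1

lemma rk_lt {t k : ℕ} {u v : Fin t → Fin k} (h1 : u ≤ v) (h2 : ¬ v ≤ u) : rk u < rk v := by
  obtain ⟨i, hi⟩ := not_forall.1 h2
  exact sum_lt_sum (fun j _ => h1 j) ⟨i, mem_univ _, not_le.1 hi⟩

lemma two {t k : ℕ} {u x y : Fin t → Fin k} (hx : u ≤ x) (hy : u ≤ y) (h1 : ¬ x ≤ y)
    (h2 : ¬ y ≤ x) : rk u + 2 ≤ rk (x ⊔ y) := by
  have a := rk_lt hx fun e => h1 (e.trans hy)
  have b := rk_lt (le_sup_left : x ≤ x ⊔ y) fun e => h2 (le_sup_right.trans e)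
  omega

lemma three {t k : ℕ} {u x y z : Fin t → Fin k} (hx : u ≤ x) (hy : u ≤ y) (hz : u ≤ z)
    (h1 : ¬ x ≤ y) (h2 : ¬ y ≤ x) (h3 : ¬ x ≤ z) (h4 : ¬ z ≤ y) :
    rk u + 3 ≤ rk (x ⊔ y ⊔ z) := by
  by_cases e : z ≤ x ⊔ y
  · have a := rk_lt (le_inf hz hx) fun e' => h4 (by
      rw [← inf_eq_left.2 e, inf_sup_left]
      exact sup_le (e'.trans hy) inf_le_right)
    have b := rk_lt (inf_le_right : z ⊓ x ≤ x) fun e' => h3 (e'.trans inf_le_left)
    have d := rk_lt (le_sup_left : x ≤ x ⊔ y) fun e => h2 (le_sup_right.trans e)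
    rw [sup_eq_left.2 e]
    omega
  · have a := two hx hy h1 h2
    have b := rk_lt (le_sup_left : x ⊔ y ≤ x ⊔ y ⊔ z) fun e' => e (le_sup_right.trans e')
    omega

lemma lower {t K : ℕ} (f : (P h).T ↪o (Fin t → Fin (K + 1))) : c ≤ t * K := by
  have main : ∀ a, (a = c ∨ a < c ∧ s a = a) → ∃ u : Fin t → Fin (K + 1), a ≤ rk u ∧
      ∀ y : Fin c, a ≤ y.1 → u ≤ f y := by
    intro a
    induction a using Nat.strong_induction_on with
    | _ a ih =>
      intro ha
      rcases Nat.eq_zero_or_pos a with rfl | h0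
      · exact ⟨⊥, Nat.zero_le _, fun _ _ => bot_le⟩
      have p1 := h.h1 (a - 1) (by omega)
      have p2 := h.h1 (s (a - 1)) (by omega)
      have p3 := h.h2 (a - 1) (s (a - 1)) (by omega) (by omega)
      obtain ⟨u, hu, hu'⟩ := ih (s (a - 1)) (by omega) (Or.inr ⟨by omega, by omega⟩)
      have up : ∀ x y : Fin c, x.1 < a → a ≤ y.1 → f x ≤ f y := fun x y hx hy =>
        f.le_iff_le.2 (Or.inr (by
          have := h.h2 a y (by omega) y.2
          have := h.h1 y y.2
          have := y.2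
          omega))
      have inc : ∀ x y : Fin c, s (a - 1) ≤ x.1 → y.1 < a → x.1 ≠ y.1 → ¬ f x ≤ f y := by
        intro x y hx hy hxy e
        rcases f.le_iff_le.1 e with e | e
        · exact hxy (congrArg Fin.val e)
        · have := h.h2 (a - 1) y (by omega) y.2
          have := h.h1 y y.2
          have e : x.1 < s y := e
          omega
      have p4 : s (a - 1) + 2 ≤ a := by
        rcases ha with ha | ha
        · omega
        · by_contra hn
          have : s (a - 1) + 1 = a := by omega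
          rw [this] at p1
          omega
      let x : Fin c := ⟨s (a - 1), by omega⟩
      let y : Fin c := ⟨s (a - 1) + 1, by omega⟩
      by_cases e : s (a - 1) + 2 = a
      · refine ⟨f x ⊔ f y, ?_, fun w hw => sup_le (up x w (by simp [x]; omega) hw)
          (up y w (by simp [y]; omega) hw)⟩
        have := two (hu' x le_rfl) (hu' y (by simp [y]))
          (inc x y le_rfl (by simp [y]; omega) (by simp [x, y]))
          (inc y x (by simp [y]) (by simp [x]; omega) (by simp [x, y]))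
        omega
      · let z : Fin c := ⟨s (a - 1) + 2, by omega⟩
        refine ⟨f x ⊔ f y ⊔ f z, ?_, fun w hw => sup_le (sup_le (up x w (by simp [x]; omega) hw)
          (up y w (by simp [y]; omega) hw)) (up z w (by simp [z]; omega) hw)⟩
        have := three (hu' x le_rfl) (hu' y (by simp [y])) (hu' z (by simp [z]))
          (inc x y le_rfl (by simp [y]; omega) (by simp [x, y]))
          (inc y x (by simp [y]) (by simp [x]; omega) (by simp [x, y]))
          (inc x z le_rfl (by simp [z]; omega) (by simp [x, z]))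
          (inc z y (by simp [z]) (by simp [y]; omega) (by simp [y, z]))
        omega
  obtain ⟨u, hu, -⟩ := main c (Or.inl rfl)
  exact hu.trans ((sum_le_card_nsmul _ _ K fun i _ => Nat.le_of_lt_succ (u i).2).trans (by simp))

lemma good (T K : ℕ) (hT : 3 ≤ T) (hK : 1 ≤ K) (hc : c = T * K + 1) :
    Irr (K + 1) (P h).T ∧ dim (K + 1) (P h).T = T + 1 := by
  have e1 : T + 1 ∈ {t | Nonempty ((P h).T ↪o (Fin t → Fin (K + 1)))} :=
    embed (T + 1) K (by omega) Fin.val (fun a => s (Fin.val a))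
      (fun a => by have : Fin.val a < c := a.2; rw [add_mul]; omega)
      (fun a => by have := h.h1 _ a.2; omega) (le_iff h) fun a b => by
        by_cases e : a = b
        · exact Or.inl e
        · have := h.h2 _ _ a.2 b.2
          have : Fin.val a ≠ Fin.val b := fun e' => e (Fin.ext e')
          right
          omega
  have e2 : dim (K + 1) (P h).T = T + 1 := by
    refine le_antisymm (Nat.sInf_le e1) ?_
    obtain ⟨f⟩ := Nat.sInf_mem ⟨_, e1⟩
    have := lower h f
    by_contra hn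
    have := Nat.mul_le_mul_right K (show dim (K + 1) (P h).T ≤ T by omega)
    unfold dim at this
    omega
  refine ⟨fun x => ?_, e2⟩
  rw [e2]
  refine Nat.lt_succ_of_le (Nat.sInf_le (embed T K hT
    (fun a => if Fin.val a.1 < Fin.val x then Fin.val a.1 else Fin.val a.1 - 1)
    (fun a => if s (Fin.val a.1) ≤ Fin.val x then s (Fin.val a.1) else s (Fin.val a.1) - 1)
    (fun a => ?_) (fun a => ?_) (fun a b => ?_) fun a b => ?_))
  · have : Fin.val a.1 < c := a.1.2
    have : Fin.val x < c := x.2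
    have : Fin.val a.1 ≠ Fin.val x := fun e => a.2 (Fin.ext e)
    split_ifs <;> omega
  · have := h.h1 _ a.1.2
    have : Fin.val a.1 ≠ Fin.val x := fun e => a.2 (Fin.ext e)
    split_ifs <;> omega
  · have : Fin.val a.1 ≠ Fin.val x := fun e => a.2 (Fin.ext e)
    rw [← Subtype.coe_le_coe, le_iff, Subtype.ext_iff]
    refine or_congr Iff.rfl ?_
    split_ifs <;> omega
  · by_cases e : a = b
    · exact Or.inl e
    · have := h.h2 _ _ a.1.2 b.1.2
      have : Fin.val a.1 ≠ Fin.val b.1 := fun e' => e (Subtype.ext (Fin.ext e'))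
      have : Fin.val a.1 ≠ Fin.val x := fun e => a.2 (Fin.ext e)
      have : Fin.val b.1 ≠ Fin.val x := fun e => b.2 (Fin.ext e)
      right
      split_ifs <;> omega

lemma below (y : (P h).T) : Nat.card {x : (P h).T // x < y} = s (Fin.val y) := by
  have q : Fin.val y < c := y.2
  have p := h.h1 _ q
  rw [← Nat.card_fin (s (Fin.val y))]
  refine Nat.card_congr ⟨fun x => ⟨Fin.val x.1, ?_⟩, fun i => ⟨⟨i.1, show i.1 < c by
    have := i.2; omega⟩, lt_of_le_of_ne (Or.inr i.2) fun e => ?_⟩, fun _ => rfl, fun _ => rfl⟩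
  · exact x.2.le.resolve_left x.2.ne
  · have := congrArg Fin.val e
    have := i.2
    simp only at *
    omega

lemma inv {s' : ℕ → ℕ} (h' : Bl c s') (e : (P h).T ≃o (P h').T) (y : (P h).T) :
    ∃ y' < c, s' y' = s (Fin.val y) := by
  refine ⟨Fin.val (e y), (e y).2, ?_⟩
  rw [← below h y, ← below h' (e y)]
  exact (Nat.card_congr (e.toEquiv.subtypeEquiv (p := fun x => x < y) (q := fun x => x < e y)
    fun x => e.lt_iff_lt.symm)).symm

def S (c m : ℕ) (b : Fin m → Bool) (j : ℕ) : ℕ :=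
  if h : j / 5 < m then
    (if b ⟨j / 5, h⟩ then (if j % 5 < 2 then j / 5 * 5 else j / 5 * 5 + 2)
      else if j % 5 < 3 then j / 5 * 5 else j / 5 * 5 + 3)
  else if c ≤ 5 * m + 3 then 5 * m
  else if c = 5 * m + 6 then (if j < 5 * m + 3 then 5 * m else 5 * m + 3)
  else if j < 5 * m + 2 then 5 * m else 5 * m + 2

lemma S_eq (c m : ℕ) (b : Fin m → Bool) : ∃ g : ℕ → ℕ, (∀ q, g q = 2 ∨ g q = 3) ∧
    (∀ q : Fin m, g q = if b q then 2 else 3) ∧ ∀ j, S c m b j =
    if j / 5 < m then (if j % 5 < g (j / 5) then j / 5 * 5 else j / 5 * 5 + g (j / 5))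
    else if c ≤ 5 * m + 3 then 5 * m
    else if c = 5 * m + 6 then (if j < 5 * m + 3 then 5 * m else 5 * m + 3)
    else if j < 5 * m + 2 then 5 * m else 5 * m + 2 := by
  refine ⟨fun q => if h : q < m then (if b ⟨q, h⟩ then 2 else 3) else 2, fun q => ?_,
    fun q => by simp, fun j => ?_⟩
  · beta_reduce
    split_ifs <;> simp
  · unfold S
    by_cases h : j / 5 < m
    · simp only [h, dif_pos, if_true]
      split_ifs <;> rfl
    · simp only [h, dif_neg, not_false_eq_true, if_false]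

lemma S_bl (c m : ℕ) (h1 : 5 * m + 2 ≤ c) (h2 : c ≤ 5 * m + 6) (b : Fin m → Bool) :
    Bl c (S c m b) := by
  obtain ⟨g, g1, -, g2⟩ := S_eq c m b
  constructor
  · intro j hj
    have a1 := g1 (j / 5)
    have a2 := g2 j
    have a3 := g2 (S c m b j + 1)
    have a4 : j / 5 < m → (S c m b j + 1) / 5 = j / 5 := by
      intro e; rw [if_pos e] at a2; split_ifs at a2 <;> omega
    by_cases e : j / 5 < m
    · rw [a4 e] at a3
      split_ifs at a2 a3 <;> omega
    · split_ifs at a2 a3 <;> omega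
  · intro i j hi hj
    have a1 := g1 (j / 5)
    have a2 := g1 (i / 5)
    have a3 := g2 j
    have a4 := g2 i
    by_cases e : i / 5 = j / 5
    · rw [e] at a4
      split_ifs at a3 a4 <;> omega
    · split_ifs at a3 a4 <;> omega

lemma bound (T K : ℕ) (hT : 3 ≤ T) (hK : 1 ≤ K) :
    ((2 ^ ((T * K - 1) / 5) : ℕ) : ℕ∞) ≤ N (K + 1) (T + 1) := by
  have hp : 1 ≤ T * K := Nat.mul_pos (by omega) hK
  generalize hm : (T * K - 1) / 5 = m
  have B := S_bl (T * K + 1) m (by omega) (by omega)
  have inj : Function.Injective fun b : Fin m → Bool => Quotient.mk iso (P (B b)) := by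
    intro b b' e
    obtain ⟨e⟩ := Quotient.exact e
    ext q
    obtain ⟨g, g1, g3, g2⟩ := S_eq (T * K + 1) m b
    obtain ⟨g', g1', g3', g2'⟩ := S_eq (T * K + 1) m b'
    have hq := q.2
    obtain ⟨y, hy, hy'⟩ := inv (B b) (B b') e ⟨5 * q + 4, show _ < T * K + 1 by omega⟩
    have a1 := g2 (5 * q + 4)
    have a2 := g2' y
    have a3 := g1 q
    have a4 := g1' (y / 5)
    rw [show (5 * q.1 + 4) / 5 = q.1 by omega] at a1
    simp only at hy'
    have a5 : y / 5 = q ∧ g' (y / 5) = g q := by split_ifs at a1 a2 <;> omega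
    have a6 := a5.2
    rw [a5.1, g3, g3'] at a6
    revert a6
    cases b q <;> cases b' q <;> simp
  refine le_trans (le_of_eq ?_) (Set.encard_le_encard (s := Set.range
    fun b : Fin m → Bool => Quotient.mk iso (P (B b))) ?_)
  · rw [← Set.image_univ, inj.encard_image, Set.encard_univ]
    simp
  · rintro _ ⟨b, rfl⟩
    exact ⟨_, good (B b) T K hT hK rfl, rfl⟩

theorem result (k : ℕ) (hk : 2 ≤ k) :
    (∀ t, 4 ≤ t → ((2 ^ (((t - 1) * (k - 1) - 1) / 5) : ℕ) : ℕ∞) ≤ N k t) ∧
    ∀ c C t₀ : ℕ, ∃ t, t₀ ≤ t ∧ ((C * t ^ c : ℕ) : ℕ∞) < N k t := by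
  have main : ∀ t, 4 ≤ t → ((2 ^ (((t - 1) * (k - 1) - 1) / 5) : ℕ) : ℕ∞) ≤ N k t := by
    intro t ht
    have := bound (t - 1) (k - 1) (by omega) (by omega)
    rwa [show k - 1 + 1 = k by omega, show t - 1 + 1 = t by omega] at this
  refine ⟨main, fun c C t₀ => ?_⟩
  have h := (isLittleO_pow_const_const_pow_of_one_lt (R := ℝ) c (one_lt_two (α := ℝ))).bound
    (c := 1 / (C * 7 ^ c + 1)) (by positivity)
  obtain ⟨m, hm, hm'⟩ := ((Filter.eventually_ge_atTop (t₀ + 1)).and h).exists
  refine ⟨5 * m + 2, by omega, lt_of_lt_of_le ?_ (main _ (by omega))⟩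
  have e1 : m ≤ ((5 * m + 2 - 1) * (k - 1) - 1) / 5 := by
    have := Nat.mul_le_mul_left (5 * m + 2 - 1) (show 1 ≤ k - 1 by omega)
    omega
  have e2 : C * (5 * m + 2) ^ c < 2 ^ m := by
    have a : (C * 7 ^ c + 1) * m ^ c ≤ 2 ^ m := by
      rw [Real.norm_of_nonneg (by positivity), Real.norm_of_nonneg (by positivity),
        one_div_mul_eq_div, le_div_iff₀ (by positivity), mul_comm] at hm'
      exact_mod_cast hm'
    have b : (5 * m + 2) ^ c ≤ 7 ^ c * m ^ c := by
      rw [← mul_pow]; exact Nat.pow_le_pow_left (by omega) _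
    have d : 0 < m ^ c := pow_pos (by omega) _
    have := Nat.mul_le_mul_left C b
    nlinarith
  exact_mod_cast e2.trans_le (Nat.pow_le_pow_right two_pos e1)

end Pool.Agent.Results.MP_f639ae_co.Exponential
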